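import Pool.Agent.W_MP_9fa5c3_co.Start

/-!
# Every 2-coloured cocktail-party graph has a (2,2)-cover

Suppose there is no (2,2)-cover.  Some pair `a, c` has no common red neighbour and is joined in
blue.  Together with the partners `a', c'` these are four *special* vertices, and every other
vertex is described by its colours to the special vertices.  A finite decision tree (468 nodes),
which is checked by the kernel, excludes all cases: each node exhibits two monochromatic vertex
sets which cover everything, and either they form a (2,2)-cover, or the vertices which show that
they do not are made special (at most eight special vertices occur).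
-/

open PoolAgent.MP9fa5c3

/-- **Result.**  Let `M` be a perfect matching on the (nonempty) vertex set `V` and let the edges
of its complement, the cocktail-party graph, be coloured with two colours.  Then there are two
monochromatic subgraphs of diameter at most 2 which together contain all vertices. -/
theorem Pool.Agent.Results.MP_9fa5c3_co.TwoTwoCover.result {V : Type} [Nonempty V]
    (M : SimpleGraph V) (hM : IsPerfectMatchingGraph M) (col : Sym2 V → Bool) :
    HasCover (Mᶜ) col 2 2 := by
  by_contra hno
  obtain ⟨a, c, hac, hcom⟩ := Cert.exists_start hM hno
  obtain ⟨a', haa, -⟩ := hM a
  obtain ⟨c', hcc, -⟩ := hM c
  exact (Cert.check_sound hM hno _).1 _ (Cert.cert_ok _ _ _) _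
    (Cert.sat_fresh hM hno (Cert.sat_ini hM haa hcc hac hcom))
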